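import Pool.Agent.W586.GZ.Stm

/-!
Project GZ (MP_18b69d_an, S03946), part K: zero diagonal operators are small on averages.
-/

set_option autoImplicit false
open Filter Topology

namespace Pool.Agent.W445.GZ.K
open Pool.Agent.W586.GZ

theorem main : S_STAR → S_PAIR → S_DSEQ → S_DEP → S_BLK → S_K := by
  intro hStar hPair hDseq hDep hBlk P t C hdiag hCB ε hε
  by_contra hcon
  push Not at hcon
  have hsup : Supply P t (ε / 8) := by
    apply hStar P t C ε hdiag hCB hε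
    intro N0
    obtain ⟨N, hN, y, F, h1, h2, h3⟩ := hcon N0
    exact ⟨N, y, F, hN, h1, h2, h3⟩
  have hpairs := hPair P t (ε / 8) hsup
  obtain ⟨j, hj⟩ := exists_nat_gt (48 * C / (ε / 8))
  obtain ⟨y, f, q, κ, M, hD, hle⟩ := hDseq P t (ε / 8) (by positivity) hpairs j
  have hNB := hDep P j y f q hD
  have hC := hBlk (WW P) (WW_idl P) t C κ hCB
  have h1 := hC.2 (Finset.range M) _ _ hNB
  have hF : W P (some (2 * j + 1))
      (((P.m (2 * j + 1) : ℚ)⁻¹) • ∑ i ∈ Finset.range (P.n (2 * j + 1)), f i) :=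
    W.odd j _ f q le_rfl hD.fw hD.fs hD.qj hD.qm hD.tau
  have h2 := h1 _ ⟨_, hF⟩
  have h3 := hle.trans h2
  have hm : (0 : ℝ) < P.m (2 * j + 1) := P.mpos' _
  have hn : (0 : ℝ) < P.n (2 * j + 1) := by
    have h0 := P.nlt.monotone (Nat.zero_le (2 * j + 1))
    have := P.n0
    exact_mod_cast (by omega : 0 < P.n (2 * j + 1))
  have hmj : ((2 * j + 1 : ℕ) : ℝ) ≤ P.m (2 * j + 1) := by
    exact_mod_cast P.mlt.le_apply
  set m : ℝ := ((P.m (2 * j + 1) : ℕ) : ℝ) with hmdef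
  set n : ℝ := ((P.n (2 * j + 1) : ℕ) : ℝ) with hndef
  have h4 : (ε / 8) * m ≤ 48 * C := by
    have h5 : n * (ε / 8) / m * (m ^ 2 / n) ≤ C * (48 * n / m ^ 2) * (m ^ 2 / n) :=
      mul_le_mul_of_nonneg_right h3 (by positivity)
    have h6 : n * (ε / 8) / m * (m ^ 2 / n) = (ε / 8) * m := by field_simp
    have h7 : C * (48 * n / m ^ 2) * (m ^ 2 / n) = 48 * C := by field_simp
    rw [h6, h7] at h5
    exact h5
  have h8 : 48 * C / (ε / 8) < m := by
    push_cast at hmj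
    have : (0 : ℝ) ≤ j := Nat.cast_nonneg j
    linarith
  rw [div_lt_iff₀ (by positivity)] at h8
  linarith

end Pool.Agent.W445.GZ.K
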